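import Pool.Agent.H901.Q.STEP
import Pool.Agent.H901.Q.TOW
import Pool.Agent.H901.Q.ANIS
import Pool.Agent.H901.Q.HYP
import Pool.Agent.H901.Q.IRR
import Pool.Agent.H901.Q.EQV
import Pool.Agent.H901.Q.MOD
import Pool.Agent.H901.Q2.ASM3
import Pool.Agent.H901.Q2.SPR
import Pool.Agent.H901.Q2.LIFT
import Pool.Agent.H901.Q2.PLACE
import Pool.Agent.H901.Q2.CURVE
import Pool.Agent.H901.Q2.VER
import Pool.Agent.H901.Q2.LST
import Pool.Agent.H901.Q2.FSU
import Pool.Agent.H901.Q2.SUBU

/-!
The existence of points of odd degree on arbitrary projective varieties over arbitrary finitely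
generated extensions of the field of the algebraic numbers, and the existence of rational points on
intersections of two quadrics, are reduced by a computable function to the rationality problem for
unirational varieties.
-/

set_option autoImplicit false

namespace Pool.Agent.Results.MP_1dc56d_ag.OddPoints

open Pool.Agent.H901 Pool.Agent.H901.Q Pool.Agent.H901.Q.Asm Pool.Agent.H901.Q2

/-- **The reduction.** Let `u`, `u'` be the codes of `1` and `-1`. There is a computable function `f`
which reduces the existence of nontrivial zeros of the quadratic forms `∑ x_(ix i j) z_i z_j` over the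
function fields of the hypersurfaces `p = 0` to the rationality of unirational varieties. If all
algebraic numbers have a code, then this includes, for all finitely generated fields `F`, the existence
of a point over an extension of odd degree of `F` on every projective variety over `F`, and the
existence of a point over `F` on every intersection of two quadrics over `F`. An algorithm which decides
rationality for unirational varieties of a given dimension gives an algorithm for the existence of
zeros. -/
theorem result (u u' : ℕ) :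
    ∃ f : (ℕ × ℕ) × ℕ × Poly → Sys, Computable f ∧ ∀ ν : ℕ → Qb, ν u = 1 → ν u' = -1 →
      ReducesU ν f ∧
      (Function.Surjective ν → CoversV ν ∧ ∀ m : ℕ, 2 ≤ m → Covers2 ν m) ∧
      ∀ φ : Sys →. Bool, Partrec φ → ∃ ψ : (ℕ × ℕ) × ℕ × Poly →. Bool, Partrec ψ ∧
        ∀ m N n : ℕ, 2 ≤ m → 2 * m ≤ 2 ^ N →
          DecidesRat ν φ (n + (N + m * 2 ^ N + 2 ^ (N + 1)) - MM m) →
          Decides2 ν m (fun q => ψ ((m, N), q)) n := by
  have hT : S_TOW := tow step
  have hA : S_ANIS := anis hT
  have hI : S_IRR := irr
  have hE : S_EQV := eqv hyp hA hI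
  have hP : S_PLACE := place
  have hC : S_CURVE := curve hP
  have hcov : S_COV := cov spr lift hC
  obtain ⟨L1, L2, h1, h2, h3⟩ := lst
  have hL : Good L1 L2 :=
    ⟨fun i => (h3 i).1, fun i => (h3 i).2.1, fun i B _ ξ => ((h3 i).2.2 B ξ).1,
      fun i B _ ξ => ((h3 i).2.2 B ξ).2⟩
  have hprim : Primrec (fu L1 L2 u u') := fu_prim h1 h2 fsu subu
  refine ⟨fu L1 L2 u u', hprim.to_comp, fun ν hu hu' => ⟨?_, ?_, ?_⟩⟩
  · exact redU hL hI hE hu hu'
  · intro hν
    exact ⟨coversV hν ver hcov md, fun m hm => covers2 md hm hν⟩
  · intro φ hφ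
    refine ⟨fun q => φ (fu L1 L2 u u' q), hφ.comp hprim.to_comp, ?_⟩
    intro m N n hm hN h p hp
    obtain ⟨h1, h2, h3, h4⟩ := redU hL hI hE hu hu' m N n p hm hN hp
    obtain ⟨b, hb, hb'⟩ := h _ h1 h2 h3
    exact ⟨b, hb, hb'.trans (h4.out 0 2)⟩

end Pool.Agent.Results.MP_1dc56d_ag.OddPoints
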