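import Pool.Agent.H901.CovF

/-!
The isotropy problem for Pfister forms over the function fields of all varieties over the algebraic
numbers (for `i = 2`: the existence of rational sections of conic bundles) is reduced by a
computable function to the rationality problem for unirational varieties.
-/

set_option autoImplicit false

namespace Pool.Agent.Results.MP_1dc56d_ag.PfisterReduction

open Pool.Agent.H901

/-- **The reduction.** Let `i ≥ 2`, and let `u`, `u'` be the codes of `1` and `-1`. There is a
computable function `f` which reduces the isotropy of the Pfister form `<<x_0, …, x_(i-1)>>` over the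
function fields of the hypersurfaces to the rationality of unirational varieties. If all algebraic
numbers have a code, then all Pfister forms over all finitely generated fields are covered: the
function field `Qb(p = 0)` is isomorphic to `F(y_0, …, y_(i-1))` with `x_j` mapped to
`a_j * y_j ^ 2`. For
`i = 2` the form can be replaced by a conic. An algorithm which decides rationality for unirational
varieties of a given dimension gives an algorithm for the isotropy of the forms. -/
theorem result (i : ℕ) (hi : 2 ≤ i) (u u' : ℕ) :
    ∃ f : ℕ × Poly → Sys, Computable f ∧ ∀ ν : ℕ → Qb, ν u = 1 → ν u' = -1 →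
      Reduces ν i f ∧ (Function.Surjective ν → CoversF ν i) ∧
      (∀ (n : ℕ) (p : Poly), Hyp ν 2 n p →
        (Sect ν 2 n p ↔ Conic (fx ν (n + 1, [p]) 0) (fx ν (n + 1, [p]) 1))) ∧
      ∀ φ : Sys →. Bool, Partrec φ → ∃ ψ : ℕ × Poly →. Bool, Partrec ψ ∧
        ∀ n : ℕ, DecidesRat ν φ (n + 2 ^ (i + 1)) → DecidesIsot ν i ψ n := by
  refine ⟨fsys i u u', (fsys_prim i u u').to_comp, fun ν hu hu' => ⟨?_, ?_, ?_, ?_⟩⟩
  · rintro n p ⟨hn, hv, hvar⟩
    exact main_red hi hn hu hu' hv hvar
  · intro hν
    exact coversF hν i
  · rintro n p ⟨-, hv, -⟩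
    have := hv.2
    exact isot_two _
  · intro φ hφ
    refine ⟨fun q => φ (fsys i u u' q), hφ.comp (fsys_prim i u u').to_comp, ?_⟩
    rintro n h p ⟨hn, hv, hvar⟩
    obtain ⟨h1, h2, h3, h4⟩ := main_red hi hn hu hu' hv hvar
    obtain ⟨b, hb, hb'⟩ := h _ h1 h2 h3
    exact ⟨b, hb, hb'.trans (h4.out 0 2)⟩

end Pool.Agent.Results.MP_1dc56d_ag.PfisterReduction
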